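import Mathlib
import Pool.Agent.Helper941.Zeta.Cmp
import Pool.Agent.Y670.KC.Stm2

set_option autoImplicit false

/-!
# Project KC, job SIMPLE: Post's simple set with a computable enumeration without repetitions
-/

namespace Pool.Agent.Y346.KC

open Nat.Partrec Nat.Partrec.Code
open Pool.Agent.Helper941.Zeta
open Pool.Agent.Y670.KC (SimpleEnum Stm_SIMPLE)

/-- the value `x > 2 e` found at the pair `k` -/
def ff (e k : ℕ) : Option ℕ :=
  (evaln k.unpair.1 (Denumerable.ofNat Code e) k.unpair.2).bind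
    fun x => if 2 * e < x then some x else Option.none

theorem ff_spec {e k x : ℕ} : ff e k = some x ↔
    2 * e < x ∧ x ∈ evaln k.unpair.1 (Denumerable.ofNat Code e) k.unpair.2 := by
  unfold ff
  rw [Option.bind_eq_some_iff]
  constructor
  · rintro ⟨y, hy, h⟩
    split_ifs at h with h1
    · cases h
      exact ⟨h1, hy⟩
  · rintro ⟨h1, h2⟩
    exact ⟨x, h2, by rw [if_pos h1]⟩

theorem c_ff : Computable fun p : ℕ × ℕ => ff p.1 p.2 := by
  have h1 : Computable fun p : ℕ × ℕ =>
      evaln p.2.unpair.1 (Denumerable.ofNat Code p.1) p.2.unpair.2 := by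
    have h := primrec_evaln.to_comp
    refine h.comp (((c_up1 Computable.snd).pair ?_).pair (c_up2 Computable.snd))
    exact (Computable.ofNat Code).comp Computable.fst
  have h2 : Computable fun q : (ℕ × ℕ) × ℕ =>
      if 2 * q.1.1 < q.2 then some q.2 else Option.none := by
    refine c_ite (P := fun q : (ℕ × ℕ) × ℕ => 2 * q.1.1 < q.2) ?_
      (Computable.option_some.comp Computable.snd) (Computable.const Option.none)
    exact p_lt (c_mul (Computable.const 2) (Computable.fst.comp Computable.fst)) Computable.snd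
  exact Computable.option_bind (f := fun p : ℕ × ℕ =>
    evaln p.2.unpair.1 (Denumerable.ofNat Code p.1) p.2.unpair.2)
    (g := fun p x => if 2 * p.1 < x then some x else Option.none) h1 h2

attribute [local irreducible] ff

/-- the pair `t = (e, k)` is the first success for `e` -/
def First (t : ℕ) : Prop :=
  (ff t.unpair.1 t.unpair.2).isSome = true ∧
    ∀ y < t.unpair.2, (ff t.unpair.1 y).isSome = false

/-- the value at `t` -/
def vv (t : ℕ) : ℕ := (ff t.unpair.1 t.unpair.2).getD 0

theorem c_vv : Computable vv := by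
  have h : Computable fun t : ℕ => ff t.unpair.1 t.unpair.2 :=
    c_ff.comp ((c_up1 Computable.id).pair (c_up2 Computable.id))
  exact Computable.option_getD h (Computable.const 0)

theorem c_isSome : Computable fun p : ℕ × ℕ => (ff p.1 p.2).isSome :=
  (Primrec.option_isSome.to_comp).comp c_ff

theorem c_isSome1 : Computable fun t : ℕ => (ff t.unpair.1 t.unpair.2).isSome :=
  Computable.comp (f := fun p : ℕ × ℕ => (ff p.1 p.2).isSome)
    (g := fun t : ℕ => (t.unpair.1, t.unpair.2)) c_isSome
    ((c_up1 Computable.id).pair (c_up2 Computable.id))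

theorem c_isSome2 : Computable fun p : ℕ × ℕ => (ff p.1.unpair.1 p.2).isSome :=
  Computable.comp (f := fun p : ℕ × ℕ => (ff p.1 p.2).isSome)
    (g := fun p : ℕ × ℕ => (p.1.unpair.1, p.2)) c_isSome
    ((c_up1 Computable.fst).pair Computable.snd)

theorem p_First : ComputablePred First := by
  have h1 : ComputablePred fun t : ℕ => (ff t.unpair.1 t.unpair.2).isSome = true :=
    p_of_bool c_isSome1
  have h2 : ComputablePred fun p : ℕ × ℕ => (ff p.1.unpair.1 p.2).isSome = false := by
    refine (p_not (p_of_bool c_isSome2)).of_eq fun p => ?_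
    rw [Bool.not_eq_true]
  have h3 : ComputablePred fun t : ℕ => ∀ y < t.unpair.2, (ff t.unpair.1 y).isSome = false :=
    p_ball (f := fun t : ℕ => t.unpair.2)
      (P := fun (t : ℕ) (y : ℕ) => (ff t.unpair.1 y).isSome = false) (c_up2 Computable.id) h2
  exact (p_and h1 h3).of_eq fun t => Iff.rfl

/-- `x` is the value chosen for `e` -/
def Ch (e x : ℕ) : Prop := ∃ k, ff e k = some x ∧ ∀ y < k, ff e y = Option.none

theorem Ch_unique {e x y : ℕ} (hx : Ch e x) (hy : Ch e y) : x = y := by
  obtain ⟨k, h1, h2⟩ := hx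
  obtain ⟨l, h3, h4⟩ := hy
  rcases lt_trichotomy k l with h | h | h
  · rw [h4 k h] at h1
    cases h1
  · subst h
    rw [h1] at h3
    exact Option.some.inj h3
  · rw [h2 l h] at h3
    cases h3

theorem Ch_lt {e x : ℕ} (h : Ch e x) : 2 * e < x := by
  obtain ⟨k, h1, _⟩ := h
  exact (ff_spec.1 h1).1

theorem First_iff {x : ℕ} : (∃ t, First t ∧ vv t = x) ↔ ∃ e, Ch e x := by
  constructor
  · rintro ⟨t, ⟨h1, h2⟩, h3⟩
    refine ⟨t.unpair.1, t.unpair.2, ?_, fun y hy => ?_⟩
    · obtain ⟨z, hz⟩ := Option.isSome_iff_exists.1 h1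
      unfold vv at h3
      rw [hz] at h3
      rw [hz, ← h3]
      rfl
    · have := h2 y hy
      rwa [Option.isSome_eq_false_iff, Option.isNone_iff_eq_none] at this
  · rintro ⟨e, k, h1, h2⟩
    refine ⟨Nat.pair e k, ⟨?_, fun y hy => ?_⟩, ?_⟩
    · rw [Nat.unpair_pair, h1]
      rfl
    · rw [Nat.unpair_pair] at hy ⊢
      rw [h2 y hy]
      rfl
    · unfold vv
      rw [Nat.unpair_pair, h1]
      rfl

/-- every computable injective sequence has a chosen value -/
theorem meets (q : ℕ → ℕ) (hq : Computable q) (hi : Function.Injective q) :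
    ∃ n e, Ch e (q n) := by
  have h1 : Nat.Partrec (fun n => Part.some (q n)) := Partrec.nat_iff.1 hq
  obtain ⟨c, hc⟩ := exists_code.1 h1
  set e := Encodable.encode c with he
  have hce : Denumerable.ofNat Code e = c := by rw [he, Denumerable.ofNat_encode]
  obtain ⟨n, hn⟩ : ∃ n, 2 * e < q n := by
    by_contra hcon
    push Not at hcon
    have : Set.Finite (Set.univ : Set ℕ) :=
      Set.Finite.of_finite_image ((Set.finite_le_nat (2 * e)).subset (by
        rintro _ ⟨n, _, rfl⟩
        exact hcon n)) hi.injOn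
    exact Set.infinite_univ this
  have h2 : q n ∈ eval c n := by
    rw [hc]
    exact Part.mem_some _
  obtain ⟨s, hs⟩ := evaln_complete.1 h2
  have h3 : ∃ k, (ff e k).isSome := by
    refine ⟨Nat.pair s n, ?_⟩
    have : ff e (Nat.pair s n) = some (q n) := by
      rw [ff_spec, Nat.unpair_pair, hce]
      exact ⟨hn, hs⟩
    rw [this]
    rfl
  classical
  obtain ⟨x, hx⟩ := Option.isSome_iff_exists.1 (Nat.find_spec h3)
  have h4 : Ch e x := by
    refine ⟨Nat.find h3, hx, fun y hy => ?_⟩
    have := Nat.find_min h3 hy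
    rwa [Bool.not_eq_true, Option.isSome_eq_false_iff, Option.isNone_iff_eq_none] at this
  have h5 := (ff_spec.1 hx).2
  rw [hce] at h5
  have h6 := evaln_sound h5
  rw [hc] at h6
  have h7 : x = q (Nat.find h3).unpair.2 := by simpa using h6
  exact ⟨(Nat.find h3).unpair.2, e, h7 ▸ h4⟩

theorem coinf : {x : ℕ | ¬ ∃ e, Ch e x}.Infinite := by
  classical
  intro hfin
  obtain ⟨M, hM⟩ := hfin.bddAbove
  have h1 : ∀ x : ℕ, M < x → ∃ e, Ch e x := by
    intro x hx
    by_contra hcon
    have := hM (show x ∈ {x : ℕ | ¬ ∃ e, Ch e x} from hcon)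
    omega
  choose! E hE using h1
  have h2 := Finset.card_le_card_of_injOn (s := Finset.Ioc M (2 * (M + 1)))
    (t := Finset.range (M + 1)) E (fun x hx => by
      rw [Finset.mem_coe, Finset.mem_Ioc] at hx
      rw [Finset.mem_coe, Finset.mem_range]
      have := Ch_lt (hE x hx.1)
      omega) (fun x hx y hy hxy => by
      rw [Finset.mem_coe, Finset.mem_Ioc] at hx hy
      exact Ch_unique (hE x hx.1) (hxy ▸ hE y hy.1))
  rw [Nat.card_Ioc, Finset.card_range] at h2
  omega

theorem sinf : {x : ℕ | ∃ e, Ch e x}.Infinite := by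
  intro hfin
  obtain ⟨M, hM⟩ := hfin.bddAbove
  obtain ⟨n, e, h⟩ := meets (fun n => n + (M + 1))
    (c_add Computable.id (Computable.const (M + 1))) (fun a b h => by
      have : a + (M + 1) = b + (M + 1) := h
      omega)
  have := hM (show n + (M + 1) ∈ {x : ℕ | ∃ e, Ch e x} from ⟨e, h⟩)
  omega

/-- `t` is a first success with a new value -/
def New (t : ℕ) : Prop := First t ∧ ∀ y < t, ¬ (First y ∧ vv y = vv t)

theorem p_New : ComputablePred New := by
  refine p_and p_First ?_
  refine p_ball (f := fun t : ℕ => t) (P := fun (t : ℕ) (y : ℕ) => ¬ (First y ∧ vv y = vv t))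
    Computable.id ?_
  refine p_not (p_and ?_ ?_)
  · exact Pool.Agent.Helper941.IsoProb.computablePred_comp p_First Computable.snd
  · exact p_eq (c_vv.comp Computable.snd) (c_vv.comp Computable.fst)

theorem New_of {x : ℕ} (h : ∃ e, Ch e x) : ∃ t, New t ∧ vv t = x := by
  classical
  have h1 := First_iff.2 h
  refine ⟨Nat.find h1, ⟨(Nat.find_spec h1).1, fun y hy hc => ?_⟩, (Nat.find_spec h1).2⟩
  refine Nat.find_min h1 hy ⟨hc.1, ?_⟩
  rw [hc.2, (Nat.find_spec h1).2]

theorem New_unbounded (a : ℕ) : ∃ t, a ≤ t ∧ New t := by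
  classical
  by_contra hcon
  push Not at hcon
  refine sinf (((Finset.range a).image vv).finite_toSet.subset fun x hx => ?_)
  obtain ⟨t, ht, hv⟩ := New_of hx
  rw [Finset.mem_coe, Finset.mem_image]
  refine ⟨t, ?_, hv⟩
  rw [Finset.mem_range]
  by_contra h
  exact hcon t (by omega) ht

/-- the next new success from `a` on -/
noncomputable def nxt (a : ℕ) : ℕ := sInf {t | a ≤ t ∧ New t}

theorem nxt_spec (a : ℕ) : a ≤ nxt a ∧ New (nxt a) :=
  Nat.sInf_mem (s := {t | a ≤ t ∧ New t}) (New_unbounded a)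

theorem c_nxt : Computable nxt := by
  refine c_least (P := fun (a : ℕ) (t : ℕ) => a ≤ t ∧ New t) ?_ New_unbounded
  exact p_and (p_le Computable.fst Computable.snd)
    (Pool.Agent.Helper941.IsoProb.computablePred_comp p_New Computable.snd)

/-- the new successes in increasing order -/
noncomputable def nu (n : ℕ) : ℕ := Nat.rec (nxt 0) (fun _ a => nxt (a + 1)) n

theorem nu_succ (n : ℕ) : nu (n + 1) = nxt (nu n + 1) := rfl

theorem c_nu : Computable nu := by
  refine (Computable.nat_rec (f := fun n : ℕ => n) (g := fun _ : ℕ => nxt 0)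
    (h := fun (_ : ℕ) (q : ℕ × ℕ) => nxt (q.2 + 1)) Computable.id (Computable.const _) ?_).of_eq
    fun n => rfl
  exact c_nxt.comp (c_succ (Computable.snd.comp Computable.snd))

theorem nu_New (n : ℕ) : New (nu n) := by
  cases n with
  | zero => exact (nxt_spec 0).2
  | succ n => exact (nxt_spec _).2

theorem nu_mono : StrictMono nu := strictMono_nat_of_lt_succ fun n => by
  rw [nu_succ]
  have := (nxt_spec (nu n + 1)).1
  omega

theorem nu_surj {t : ℕ} (ht : New t) : ∃ n, nu n = t := by
  classical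
  have h1 : ∃ n, t ≤ nu n := ⟨t, nu_mono.id_le t⟩
  have h2 := Nat.find_spec h1
  refine ⟨Nat.find h1, le_antisymm ?_ h2⟩
  rcases h : Nat.find h1 with _ | k
  · exact Nat.sInf_le (s := {t | 0 ≤ t ∧ New t}) ⟨Nat.zero_le _, ht⟩
  · have h3 := Nat.find_min h1 (m := k) (by omega)
    rw [nu_succ]
    exact Nat.sInf_le (s := {t | nu k + 1 ≤ t ∧ New t}) ⟨by omega, ht⟩

/-- the enumeration -/
noncomputable def gg (n : ℕ) : ℕ := vv (nu n)

theorem mem_range_gg {x : ℕ} : x ∈ Set.range gg ↔ ∃ e, Ch e x := by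
  constructor
  · rintro ⟨n, rfl⟩
    exact First_iff.1 ⟨nu n, (nu_New n).1, rfl⟩
  · intro h
    obtain ⟨t, ht, hv⟩ := New_of h
    obtain ⟨n, hn⟩ := nu_surj ht
    exact ⟨n, by unfold gg; rw [hn, hv]⟩

theorem gg_inj : Function.Injective gg := by
  have h : ∀ a b : ℕ, a < b → gg a ≠ gg b := fun a b hab he =>
    (nu_New b).2 (nu a) (nu_mono hab) ⟨(nu_New a).1, he⟩
  intro a b hab
  rcases lt_trichotomy a b with h1 | h1 | h1
  · exact absurd hab (h a b h1)
  · exact h1
  · exact absurd hab.symm (h b a h1)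

theorem t_SIMPLE : Stm_SIMPLE := by
  refine ⟨gg, ⟨c_vv.comp c_nu, gg_inj, ?_, fun q hq hi => ?_⟩⟩
  · have h : (Set.range gg)ᶜ = {x : ℕ | ¬ ∃ e, Ch e x} := by
      ext x
      rw [Set.mem_compl_iff, mem_range_gg]
      rfl
    rw [h]
    exact coinf
  · obtain ⟨n, h⟩ := meets q hq hi
    exact ⟨n, mem_range_gg.2 h⟩

end Pool.Agent.Y346.KC
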